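import Pool.Agent.H2.VN5

namespace Pool.Agent.Results.MP_d06a13_ag.TwoTri

open Pool.Agent.H2.VN

theorem result (K : Type) [Field K] : ∃ I : Ideal (MvPolynomial (Fin 6) K),
    IsSqMon I ∧ I ≠ ⊤ ∧ vnum I = 2 ∧ depth I ≤ 1 :=
  ⟨_, Ex3.sq, Ex3.ne_top, Ex3.vnum_eq, Ex3.depth_le⟩

end Pool.Agent.Results.MP_d06a13_ag.TwoTri
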